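import Pool.Agent.Run7.h381.WU.Main
import Pool.Agent.Run7.h381.WU.EQV
import Pool.Agent.Run7.h104.WU.CUT
import Pool.Agent.Run7.h104.WU.PART
import Pool.Agent.Run7.h304.WU.DEL
import Pool.Agent.Run7.h304.WU.EDGE
import Pool.Agent.Run7.h304.WU.FM
import Pool.Agent.Run7.h299.WU.POT
import Pool.Agent.Run7.h999.WU.T12
import Pool.Agent.Run7.h999.WU.HNC
import Pool.Agent.Run7.h957.WU.T45
import Pool.Agent.Run7.h957.WU.WALK
import Pool.Agent.Run7.h382.WU.T67
import Pool.Agent.Run7.h382.WU.CONV
import Pool.Agent.Run7.h814.WU.KER
import Pool.Agent.Run7.h381.WU.PTTRE
import Pool.Agent.Run7.h381.WU.PTLAW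
import Pool.Agent.Run7.h961.WU.MSIM
import Pool.Agent.Run7.h961.WU.MEAS
import Pool.Agent.Run7.h465.WU.LAB

/-!
# The wired uniform spanning tree of a recurrent unimodular random graph is a factor of iid

Let `(G, ρ)` be a unimodular random rooted graph (connected, locally finite, on a countable vertex
set `V`) which is recurrent almost surely.  There is a map `Φ` from graphs with vertex labels in
`[0,1]` to sets of edges, measurable and equivariant under all graph isomorphisms (it does not use
the root), such that for almost every realisation of `G` and i.i.d. uniform labels `U` the random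
edge set `Φ(G, U)` has the law of the wired uniform spanning forest (here a tree) of `G`: for every
exhaustion of `G` by finite connected sets `B_n` and every finite set `F` of edges the law of
`Φ(G, U) ∩ F` is the limit of the laws of `T_n ∩ F`, `T_n` the uniform spanning tree of the graph
(with multiple edges) obtained from `G` by identifying the vertices outside `B_n`.

Proof.
(1) Let `h_x` be the average of the laws of the first `N` steps of simple random walk from `x`.  As
`G` is recurrent, `h_x` and `h_y` are close in total variation for neighbours `x`, `y` and large
`N` (the walk from `y` hits `x`).  With i.i.d. uniform `τ_w` let `x` choose the set of the `w` with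
`τ_w < c h_x(w)`, and put two vertices into the same cell if they choose the same non-empty set.
The cells are finite (their diameter is at most `2 N`), and neighbours are separated with
probability at most `e^(-c) + c |h_x - h_y|`.  For suitable `c_k`, `N_k`, by Borel-Cantelli and the
mass transport principle, every edge is cut by finitely many of the partitions number `k`; the
common refinements of the partitions number `k`, `k + 1`, ... are finite partitions, increasing
with `k`, in which any two vertices are finally together.
(2) Spanning forests satisfy the negative association theorem of Feder and Mihail; so for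
`E' ⊆ E` the uniform spanning forest of `E'` dominates the part in `E'` of the one of `E`, and by
Hall's theorem there is a coupling.  Let `T_k` be the union of independent uniform spanning trees of
the cells number `k`, where the trees of the cells number `k + 1` are chosen, with fresh labels, such
that their part in the smaller cells is contained in `T_k`.  So every edge, once it is inside a cell,
can only disappear, and `T_k` converges.  The choices are made equivariant by ordering the vertices
of a cell by their labels.
(3) The limit has the law of the free uniform spanning forest.  On a recurrent graph it is equal to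
the wired one: by Kirchhoff's formula the probabilities that `xy` is in the free tree and in the
wired tree of a large finite set are the differences of two potentials; the difference of the two
potentials is harmonic and bounded by one, and it is small as the walk returns.
-/

set_option autoImplicit false

open MeasureTheory Filter
open scoped unitInterval

namespace Pool.Agent.Results.MP_688e31_pr.FactorOfIid

open Run7.h381.WU
open Pool.Agent.H424R3.Pow (RandomRootedGraph)

/-- The wired uniform spanning tree of an almost surely recurrent unimodular random rooted graph is
a graph factor of i.i.d. -/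
theorem result {V : Type} [Countable V] {Ω : Type} [MeasurableSpace Ω] {P : Measure Ω}
    [IsProbabilityMeasure P] (X : RandomRootedGraph V P) (hU : X.Unimodular)
    (hR : ∀ᵐ ω ∂P, Rec (X.graph ω)) :
    ∃ Φ : SimpleGraph V → (V → I) → Set (Sym2 V), IsFactorMap Φ ∧
      ∀ᵐ ω ∂P, HasLawWUSF (X.graph ω) (labels V) (Φ (X.graph ω)) := by
  have hDEL : S_DEL := Run7.h304.WU.DEL Run7.h999.WU.T3 Run7.h999.WU.T3p Run7.h957.WU.T5
    Run7.h304.WU.FM (Run7.h999.WU.hnc Run7.h299.WU.POT Run7.h299.WU.KIR)
  have hEDGE : S_EDGE := Run7.h304.WU.EDGE Run7.h999.WU.T1 Run7.h999.WU.T2 Run7.h299.WU.POT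
    Run7.h299.WU.KIR
  have hCONV : S_CONV := Run7.h382.WU.CONV Run7.h957.WU.T4 Run7.h957.WU.T8 hDEL hEDGE
  have hMAIN : S_MAIN := main (Run7.h814.WU.KER Run7.h999.WU.T1 hDEL) Run7.h465.WU.LAB
    EQV Run7.h961.WU.MEAS
    (Run7.h104.WU.PART (Run7.h104.WU.CUT Run7.h957.WU.WALK) Run7.h961.WU.MSIM) hCONV
    (Run7.h381.WU.PT.LAW Run7.h382.WU.T6 Run7.h382.WU.T7 Run7.h957.WU.T8)
    (Run7.h381.WU.PT.DEC Run7.h382.WU.T6 Run7.h382.WU.T7) Run7.h465.WU.INJ
    (Run7.h104.WU.FINC Run7.h957.WU.WALK)
  exact hMAIN V Ω P X hU hR

end Pool.Agent.Results.MP_688e31_pr.FactorOfIid
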